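import Pool.Agent.K4H21.PL.Ext

/-!
Functors to groupoids with unique lifting along a class of morphisms.
-/

set_option autoImplicit false

open CategoryTheory

namespace Pool.Agent.K4H21.PL

universe v u w z

variable {𝒱 : Type w} [Category.{z} 𝒱]

/-- The functor underlying `P.map f`. -/
abbrev fm (P : 𝒱 ⥤ Grpd.{v, u}) {X Y : 𝒱} (f : X ⟶ Y) : P.obj X ⥤ P.obj Y := P.map f

theorem fm_comp (P : 𝒱 ⥤ Grpd.{v, u}) {X Y Z : 𝒱} (f : X ⟶ Y) (g : Y ⟶ Z) :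
    fm P (f ≫ g) = fm P f ⋙ fm P g := P.map_comp f g

theorem fm_id (P : 𝒱 ⥤ Grpd.{v, u}) (X : 𝒱) : fm P (𝟙 X) = 𝟭 (P.obj X) := P.map_id X

/-- `Z` with `p`, `q` is a product of `X` and `Y`. -/
def IsProd {X Y Z : 𝒱} (p : Z ⟶ X) (q : Z ⟶ Y) : Prop :=
  ∀ (V : 𝒱) (a : V ⟶ X) (b : V ⟶ Y), ∃! u : V ⟶ Z, u ≫ p = a ∧ u ≫ q = b

/-- The map of objects to the product. -/
def toProdObj (R : 𝒱 ⥤ Grpd.{v, u}) {X Y Z : 𝒱} (p : Z ⟶ X) (q : Z ⟶ Y) (z : R.obj Z) :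
    R.obj X × R.obj Y := ((fm R p).obj z, (fm R q).obj z)

/-- The map of morphisms to the product. -/
def toProdMap (R : 𝒱 ⥤ Grpd.{v, u}) {X Y Z : 𝒱} (p : Z ⟶ X) (q : Z ⟶ Y) (z z' : R.obj Z)
    (a : z ⟶ z') : ((fm R p).obj z ⟶ (fm R p).obj z') × ((fm R q).obj z ⟶ (fm R q).obj z') :=
  ((fm R p).map a, (fm R q).map a)

/-- Conditions (1), (2), (3). -/
structure Pi1Like (con : 𝒱 → Prop) (Et : ∀ {X Y : 𝒱}, (X ⟶ Y) → Prop)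
    (R : 𝒱 ⥤ Grpd.{v, u}) : Prop where
  prodObj : ∀ {X Y Z : 𝒱} (p : Z ⟶ X) (q : Z ⟶ Y), IsProd p q →
    Function.Bijective (toProdObj R p q)
  prodMap : ∀ {X Y Z : 𝒱} (p : Z ⟶ X) (q : Z ⟶ Y), IsProd p q → ∀ z z' : R.obj Z,
    Function.Bijective (toProdMap R p q z z')
  conn : ∀ X : 𝒱, con X → ∀ x y : R.obj X, Nonempty (x ⟶ y)
  lift : ∀ {X Y : 𝒱} (f : X ⟶ Y), Et f → ∀ x : R.obj X,
    Function.Bijective ((fm R f).toPrefunctor.star x)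

variable (P : 𝒱 ⥤ Grpd.{v, u}) (Q : 𝒱 → Prop)

/-- The loops coming from the objects in `Q`. -/
def loops (X : 𝒱) : NL (P.obj X) where
  s x := {l | ∃ (V : 𝒱) (_ : Q V) (F : P.obj V ⥤ P.obj X) (_ : ∃ g : V ⟶ X, fm P g = F)
    (v : P.obj V) (m : v ⟶ v) (δ : x ⟶ F.obj v), l = δ ≫ F.map m ≫ Groupoid.inv δ}
  conj := by
    rintro a b γ l ⟨V, hV, F, hF, v, m, δ, rfl⟩
    refine ⟨V, hV, F, hF, v, m, γ ≫ δ, ?_⟩
    simp

theorem loops_map {X Y : 𝒱} (f : X ⟶ Y) (x : P.obj X) (l : x ⟶ x)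
    (hl : l ∈ (loops P Q X).s x) : (fm P f).map l ∈ (loops P Q Y).s ((fm P f).obj x) := by
  obtain ⟨V, hV, F, ⟨g, rfl⟩, v, m, δ, rfl⟩ := hl
  refine ⟨V, hV, fm P g ⋙ fm P f, ⟨g ≫ f, fm_comp P g f⟩, v, m, (fm P f).map δ, ?_⟩
  simp

/-- The extended functor. -/
noncomputable def R : 𝒱 ⥤ Grpd.{v, u} where
  obj X := Grpd.of (Ext (loops P Q X))
  map f := mapE _ _ (fm P f) (loops_map P Q f)
  map_id X := by
    refine (mapE_congr _ _ (fm_id P X) _ ?_).trans (mapE_id _ _)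
    intro x l hl
    exact hl
  map_comp f g := by
    refine (mapE_congr _ _ (fm_comp P f g) _ ?_).trans (mapE_comp _ _ _ _ _ _ _ _)
    intro x l hl
    exact loops_map P Q g _ _ (loops_map P Q f _ _ hl)

variable {P Q} {con : 𝒱 → Prop} {Et : ∀ {X Y : 𝒱}, (X ⟶ Y) → Prop}


end Pool.Agent.K4H21.PL
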