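import Pool.Agent.K4H21.PL.Main

/-!
Smooth quasi-projective varieties over `ℂ`, the analytic topology on their points, the
topological fundamental groupoid.
-/

set_option autoImplicit false

open CategoryTheory AlgebraicGeometry Limits TopologicalSpace

noncomputable section

namespace Pool.Agent.K4H21.PL

/-- `Spec k`. -/
abbrev Sp (k : Type) [Field k] : Scheme.{0} := Spec (CommRingCat.of k)

attribute [local instance] MvPolynomial.gradedAlgebra

/-- Projective space `ℙⁿ` over `ℤ`. -/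
def PZ (n : ℕ) : Scheme.{0} := Proj (MvPolynomial.homogeneousSubmodule (Fin (n + 1)) ℤ)

/-- Projective space `ℙⁿ` over `S`. -/
def PS (n : ℕ) (S : Scheme.{0}) : Scheme.{0} :=
  pullback (terminal.from S) (terminal.from (PZ n))

/-- The structure morphism of `ℙⁿ` over `S`. -/
def PSfst (n : ℕ) (S : Scheme.{0}) : PS n S ⟶ S := pullback.fst _ _

/-- Base change of `ℙⁿ`. -/
def PSmap (n : ℕ) {S S' : Scheme.{0}} (s : S ⟶ S') : PS n S ⟶ PS n S' :=
  pullback.map _ _ _ _ s (𝟙 _) (𝟙 _) (by simp) (by simp)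

instance (n : ℕ) {S S' : Scheme.{0}} (s : S ⟶ S') [IsIso s] : IsIso (PSmap n s) := by
  have h1 : IsIso (𝟙 (PZ n)) := inferInstance
  have h2 : IsIso (𝟙 (⊤_ Scheme.{0})) := inferInstance
  exact pullback.map_isIso (terminal.from S) (terminal.from (PZ n)) (terminal.from S')
    (terminal.from (PZ n)) s (𝟙 (PZ n)) (𝟙 (⊤_ Scheme.{0})) (by simp) (by simp)

theorem PSmap_fst (n : ℕ) {S S' : Scheme.{0}} (s : S ⟶ S') :
    PSmap n s ≫ PSfst n S' = PSfst n S ≫ s := pullback.lift_fst _ _ _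

/-- `X` is smooth and quasi-projective over `k`: an immersion in a projective space exists. -/
def IsVar (k : Type) [Field k] : ObjectProperty (Over (Sp k)) := fun X =>
  Smooth X.hom ∧ ∃ (n : ℕ) (i : X.left ⟶ PS n (Sp k)), IsImmersion i ∧
    i ≫ PSfst n (Sp k) = X.hom

/-- Smooth quasi-projective varieties over `k`. -/
abbrev Var (k : Type) [Field k] := (IsVar k).FullSubcategory

/-- The algebraic closure of `ℚ` in `ℂ`. -/
abbrev QQ : IntermediateField ℚ ℂ := algebraicClosure ℚ ℂ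

/-- The morphism `Spec ℂ ⟶ Spec ℚbar`. -/
def specQbar : Sp ℂ ⟶ Sp QQ := Spec.map (CommRingCat.ofHom (algebraMap QQ ℂ))

/-- `X` is defined over the algebraic closure of `ℚ`: it is isomorphic to `X₀ ×_ℚbar ℂ`. -/
def OverQbar (X : Var ℂ) : Prop := ∃ X₀ : Var QQ,
  Nonempty (X.obj ≅ (Over.pullback specQbar).obj X₀.obj)

/-- The automorphisms of `ℂ` over the algebraic closure of `ℚ`. -/
abbrev AutC : Type := ℂ ≃ₐ[QQ] ℂ

/-- `Spec σ`. -/
def specAut (σ : AutC) : Sp ℂ ⟶ Sp ℂ := Spec.map (CommRingCat.ofHom (σ : ℂ →+* ℂ))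

/-- The complex points of a scheme over `ℂ`. -/
def Pts (X : Over (Sp ℂ)) : Type := Over.mk (𝟙 (Sp ℂ)) ⟶ X

/-- The ring of global functions of a scheme. -/
abbrev Fn (U : Scheme.{0}) : CommRingCat.{0} := Γ(U, ⊤)

/-- The functions on `Spec ℂ` are the complex numbers. -/
def gam : Fn (Sp ℂ) ⟶ CommRingCat.of ℂ := (Scheme.ΓSpecIso (CommRingCat.of ℂ)).hom

/-- The pull-back of functions to a complex point, a homomorphism of rings to `ℂ`. -/
def ev {U : Scheme.{0}} (t : Sp ℂ ⟶ U) : Fn U →+* ℂ := (t.appTop ≫ gam).hom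

/-- The value of a function at a complex point. -/
def val {U : Scheme.{0}} (t : Sp ℂ ⟶ U) (φ : Fn U) : ℂ := ev t φ

/-- The pull-back of functions. -/
def pb {U V : Scheme.{0}} (g : U ⟶ V) : Fn V →+* Fn U := g.appTop.hom

theorem val_comp {U V : Scheme.{0}} (t : Sp ℂ ⟶ U) (g : U ⟶ V) (φ : Fn V) :
    val (t ≫ g) φ = val t (pb g φ) := by
  simp only [val, ev, pb, Scheme.Hom.comp_appTop]
  rfl

/-- The points of the open subscheme `U` at which `φ` has its value in `W`. -/
def basicSet (X : Over (Sp ℂ)) (U : X.left.Opens) (φ : Fn (U : Scheme.{0})) (W : Set ℂ) :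
    Set (Pts X) :=
  {x | ∃ t : Sp ℂ ⟶ (U : Scheme.{0}), t ≫ U.ι = x.left ∧ val t φ ∈ W}

/-- The analytic topology: the coarsest one for which the sets of points of open subschemes are
open and regular functions on them are continuous. -/
instance (X : Over (Sp ℂ)) : TopologicalSpace (Pts X) :=
  TopologicalSpace.generateFrom {s | ∃ (U : X.left.Opens) (φ : Fn (U : Scheme.{0}))
    (W : Set ℂ), IsOpen W ∧ s = basicSet X U φ W}

theorem basicSet_preimage {X Y : Over (Sp ℂ)} (f : X ⟶ Y) (U : Y.left.Opens)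
    (φ : Fn (U : Scheme.{0})) (W : Set ℂ) :
    (fun x : Pts X => (x ≫ f : Pts Y)) ⁻¹' (basicSet Y U φ W)
      = basicSet X (f.left ⁻¹ᵁ U) (pb (f.left ∣_ U) φ) W := by
  have hp := isPullback_morphismRestrict f.left U
  ext x
  constructor
  · rintro ⟨t, ht, hW⟩
    have e : t ≫ U.ι = x.left ≫ f.left := ht
    refine ⟨hp.lift t x.left e, hp.lift_snd _ _ _, ?_⟩
    have h2 : hp.lift t x.left e ≫ (f.left ∣_ U) = t := hp.lift_fst _ _ _
    have h3 : val (hp.lift t x.left e) (pb (f.left ∣_ U) φ) = val t φ := by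
      rw [← val_comp, h2]
    rw [h3]
    exact hW
  · rintro ⟨t, ht, hW⟩
    refine ⟨t ≫ (f.left ∣_ U), ?_, ?_⟩
    · rw [Category.assoc, morphismRestrict_ι, ← Category.assoc, ht]
      rfl
    · rw [val_comp]
      exact hW

/-- Complex points with the analytic topology. -/
def ptsTop : Over (Sp ℂ) ⥤ TopCat.{0} where
  obj X := TopCat.of (Pts X)
  map f := TopCat.ofHom ⟨fun x => (x ≫ f : _ ⟶ _), by
    refine continuous_generateFrom_iff.2 ?_
    rintro _ ⟨U, φ, W, hW, rfl⟩
    have e := basicSet_preimage f U φ W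
    have h : IsOpen ((fun x : Pts _ => (x ≫ f : Pts _)) ⁻¹' (basicSet _ U φ W)) := by
      rw [e]
      exact TopologicalSpace.isOpen_generateFrom_of_mem ⟨_, _, W, hW, rfl⟩
    exact h⟩
  map_id X := by
    apply TopCat.hom_ext
    apply ContinuousMap.ext
    intro x
    exact Category.comp_id (x : Over.mk (𝟙 (Sp ℂ)) ⟶ X)
  map_comp {X Y Z} f g := by
    apply TopCat.hom_ext
    apply ContinuousMap.ext
    intro x
    exact (Category.assoc (x : Over.mk (𝟙 (Sp ℂ)) ⟶ X) f g).symm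

/-- The topological fundamental groupoid. -/
def pi1top : Var ℂ ⥤ Grpd.{0, 0} :=
  (IsVar ℂ).ι ⋙ ptsTop ⋙ FundamentalGroupoid.fundamentalGroupoidFunctor

/-- Connected varieties. -/
def Conn (X : Var ℂ) : Prop := ConnectedSpace X.obj.left

/-- Finite étale morphisms. -/
def FinEt {X Y : Var ℂ} (f : X ⟶ Y) : Prop := IsFinite f.hom.left ∧ Etale f.hom.left

instance isIso_spec (σ : AutC) : IsIso (specAut σ) := by
  delta specAut
  have : IsIso (CommRingCat.ofHom (σ : ℂ →+* ℂ)) :=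
    ((σ : ℂ ≃+* ℂ).toCommRingCatIso).isIso_hom
  infer_instance

theorem conj_isVar (σ : AutC) (X : Var ℂ) : IsVar ℂ ((Over.map (specAut σ)).obj X.obj) := by
  obtain ⟨h1, n, i, h2, h3⟩ := X.property
  refine ⟨?_, n, i ≫ PSmap n (specAut σ), ?_, ?_⟩
  · show Smooth (X.obj.hom ≫ specAut σ)
    infer_instance
  · have := h2
    infer_instance
  · rw [Category.assoc, PSmap_fst, ← Category.assoc, h3]
    rfl

/-- The conjugate `X ↦ X^σ`: the structure morphism is composed with `Spec σ`. -/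
def conj (σ : AutC) : Var ℂ ⥤ Var ℂ :=
  (IsVar ℂ).lift ((IsVar ℂ).ι ⋙ Over.map (specAut σ)) (conj_isVar σ)

/-- The group `ℤ²`. -/
def IsZ2 (G : Type) [Group G] : Prop := Nonempty (G ≃* Multiplicative (ℤ × ℤ))

end Pool.Agent.K4H21.PL
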