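import Mathlib

/-!
Extensions of groupoids by duals of spaces of virtual homomorphisms.
-/

set_option autoImplicit false

open CategoryTheory

namespace Pool.Agent.K4H21.PL

universe v u v' u'

/-- Virtual homomorphisms `G → ℚ`: a homomorphism on a subgroup of finite index, extended to `G`
by `F (g ^ n) = n F g`. -/
structure IsVHom {G : Type*} [Group G] (F : G → ℚ) : Prop where
  add : ∃ H : Subgroup G, H.FiniteIndex ∧ ∀ a ∈ H, ∀ b ∈ H, F (a * b) = F a + F b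
  pow : ∀ (g : G) (n : ℕ), F (g ^ n) = n * F g

/-- A conjugation invariant family of loops in a groupoid. -/
structure NL (C : Type u) [Groupoid.{v} C] where
  s : ∀ x : C, Set (x ⟶ x)
  conj : ∀ {a b : C} (γ : a ⟶ b) (l : b ⟶ b), l ∈ s b → γ ≫ l ≫ Groupoid.inv γ ∈ s a

variable {C : Type u} [Groupoid.{v} C]

theorem exists_pow_mem {G : Type*} [Group G] (H : Subgroup G) (hH : H.FiniteIndex) (g : G) :
    ∃ n : ℕ, n ≠ 0 ∧ g ^ n ∈ H := by
  haveI := hH
  obtain ⟨n, hn, -, h⟩ := H.exists_pow_mem_of_index_ne_zero hH.index_ne_zero g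
  exact ⟨n, hn.ne', h⟩

theorem IsVHom.zero {G : Type*} [Group G] : IsVHom (0 : G → ℚ) :=
  ⟨⟨⊤, inferInstance, by simp⟩, by simp⟩

theorem IsVHom.sum {G : Type*} [Group G] {F F' : G → ℚ} (h : IsVHom F) (h' : IsVHom F') :
    IsVHom (F + F') := by
  obtain ⟨⟨H, hH, a⟩, p⟩ := h
  obtain ⟨⟨H', hH', a'⟩, p'⟩ := h'
  haveI := hH
  haveI := hH'
  refine ⟨⟨H ⊓ H', inferInstance, fun x hx y hy => ?_⟩, fun g n => ?_⟩
  · simp only [Pi.add_apply]
    rw [a x hx.1 y hy.1, a' x hx.2 y hy.2]; ring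
  · simp only [Pi.add_apply]
    rw [p, p']; ring

theorem IsVHom.smul {G : Type*} [Group G] {F : G → ℚ} (c : ℚ) (h : IsVHom F) :
    IsVHom (c • F) := by
  obtain ⟨⟨H, hH, a⟩, p⟩ := h
  refine ⟨⟨H, hH, fun x hx y hy => ?_⟩, fun g n => ?_⟩
  · simp only [Pi.smul_apply, smul_eq_mul]
    rw [a x hx y hy]; ring
  · simp only [Pi.smul_apply, smul_eq_mul]
    rw [p]; ring

theorem IsVHom.comp {G G' : Type*} [Group G] [Group G'] {F : G' → ℚ} (h : IsVHom F)
    (φ : G →* G') : IsVHom (fun g => F (φ g)) := by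
  obtain ⟨⟨H, hH, a⟩, p⟩ := h
  refine ⟨⟨H.comap φ, ⟨fun h0 => hH.index_ne_zero ?_⟩, fun x hx y hy => ?_⟩, fun g n => ?_⟩
  · rw [Subgroup.index_comap] at h0
    exact Subgroup.index_eq_zero_of_relIndex_eq_zero h0
  · rw [map_mul]; exact a _ hx _ hy
  · rw [map_pow]; exact p _ n

theorem IsVHom.one {G : Type*} [Group G] {F : G → ℚ} (h : IsVHom F) : F 1 = 0 := by
  have := h.pow 1 0
  simpa using this

/-- The virtual homomorphisms that kill the family `N`. -/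
def M (N : NL C) (x : C) : Submodule ℚ ((x ⟶ x) → ℚ) where
  carrier := {F | IsVHom F ∧ ∀ l ∈ N.s x, F l = 0}
  add_mem' := fun {a b} ha hb => ⟨ha.1.sum hb.1, fun l hl => by
    simp [ha.2 l hl, hb.2 l hl]⟩
  zero_mem' := ⟨IsVHom.zero, fun _ _ => rfl⟩
  smul_mem' := fun c a ha => ⟨ha.1.smul c, fun l hl => by simp [ha.2 l hl]⟩

/-- Transport along `γ`. -/
def T (N : NL C) {a b : C} (γ : a ⟶ b) : M N a →ₗ[ℚ] M N b where
  toFun F := ⟨fun l => F.1 (γ ≫ l ≫ Groupoid.inv γ), by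
    refine ⟨?_, fun l hl => F.2.2 _ (N.conj γ l hl)⟩
    exact F.2.1.comp (Groupoid.vertexGroupIsomOfMap γ).symm.toMonoidHom⟩
  map_add' _ _ := rfl
  map_smul' _ _ := rfl

theorem T_apply (N : NL C) {a b : C} (γ : a ⟶ b) (F : M N a) (l : b ⟶ b) :
    (T N γ F).1 l = F.1 (γ ≫ l ≫ Groupoid.inv γ) := rfl

theorem T_id (N : NL C) (a : C) (F : M N a) : T N (𝟙 a) F = F := by
  apply Subtype.ext
  funext l
  rw [T_apply]
  congr 1
  simp

theorem T_comp (N : NL C) {a b c : C} (γ : a ⟶ b) (δ : b ⟶ c) (F : M N a) :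
    T N (γ ≫ δ) F = T N δ (T N γ F) := by
  apply Subtype.ext
  funext l
  rw [T_apply, T_apply, T_apply]
  congr 1
  simp

/-- The extension. -/
structure Ext (N : NL C) where
  pt : C

@[ext]
structure Ext.Hom {N : NL C} (a b : Ext N) where
  p : a.pt ⟶ b.pt
  n : Module.Dual ℚ (M N a.pt)

noncomputable instance (N : NL C) : Category (Ext N) where
  Hom a b := Ext.Hom a b
  id a := ⟨𝟙 _, 0⟩
  comp f g := ⟨f.p ≫ g.p, f.n + g.n ∘ₗ T N f.p⟩
  id_comp f := by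
    refine Ext.Hom.ext (Category.id_comp _) ?_
    refine LinearMap.ext fun F => ?_
    simp [T_id]
  comp_id f := by
    refine Ext.Hom.ext (Category.comp_id _) ?_
    refine LinearMap.ext fun F => ?_
    simp
  assoc f g h := by
    refine Ext.Hom.ext (Category.assoc _ _ _) ?_
    refine LinearMap.ext fun F => ?_
    simp [T_comp, add_assoc]

theorem Ext.comp_p {N : NL C} {a b c : Ext N} (f : a ⟶ b) (g : b ⟶ c) :
    (f ≫ g).p = f.p ≫ g.p := rfl

theorem Ext.comp_n {N : NL C} {a b c : Ext N} (f : a ⟶ b) (g : b ⟶ c) :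
    (f ≫ g).n = f.n + g.n ∘ₗ T N f.p := rfl

theorem Ext.id_p {N : NL C} (a : Ext N) : Ext.Hom.p (𝟙 a) = 𝟙 a.pt := rfl
theorem Ext.id_n {N : NL C} (a : Ext N) : Ext.Hom.n (𝟙 a) = 0 := rfl

noncomputable instance (N : NL C) : Groupoid (Ext N) where
  inv {a b} f := ⟨Groupoid.inv f.p, -(f.n ∘ₗ T N (Groupoid.inv f.p))⟩
  inv_comp {a b} f := by
    refine Ext.Hom.ext (Groupoid.inv_comp _) ?_
    refine LinearMap.ext fun F => ?_
    simp [Ext.comp_n, Ext.id_n]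
  comp_inv {a b} f := by
    refine Ext.Hom.ext (Groupoid.comp_inv _) ?_
    refine LinearMap.ext fun F => ?_
    simp [Ext.comp_n, Ext.id_n, ← T_comp, T_id]

variable {D : Type u'} [Groupoid.{v'} D]

/-- Pull-back of virtual homomorphisms along a functor. -/
def pull (N : NL C) (N' : NL D) (F : C ⥤ D) (h : ∀ x, ∀ l ∈ N.s x, F.map l ∈ N'.s (F.obj x))
    (x : C) : M N' (F.obj x) →ₗ[ℚ] M N x where
  toFun G := ⟨fun l => G.1 (F.map l), ⟨G.2.1.comp (F.mapVertexGroup x), fun l hl =>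
    G.2.2 _ (h x l hl)⟩⟩
  map_add' _ _ := rfl
  map_smul' _ _ := rfl

theorem pull_apply (N : NL C) (N' : NL D) (F : C ⥤ D)
    (h : ∀ x, ∀ l ∈ N.s x, F.map l ∈ N'.s (F.obj x)) (x : C) (G : M N' (F.obj x)) (l : x ⟶ x) :
    (pull N N' F h x G).1 l = G.1 (F.map l) := rfl

/-- The functor between extensions. -/
noncomputable def mapE (N : NL C) (N' : NL D) (F : C ⥤ D)
    (h : ∀ x, ∀ l ∈ N.s x, F.map l ∈ N'.s (F.obj x)) : Ext N ⥤ Ext N' where
  obj a := ⟨F.obj a.pt⟩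
  map f := ⟨F.map f.p, f.n ∘ₗ pull N N' F h _⟩
  map_id a := by
    refine Ext.Hom.ext (F.map_id _) ?_
    refine LinearMap.ext fun G => ?_
    simp [Ext.id_n]
  map_comp {a b c} f g := by
    refine Ext.Hom.ext (F.map_comp _ _) ?_
    refine LinearMap.ext fun G => ?_
    simp only [Ext.comp_n, LinearMap.add_apply, LinearMap.comp_apply]
    congr 2
    apply Subtype.ext
    funext l
    simp only [T_apply, pull_apply]
    congr 1
    simp

theorem mapE_congr (N : NL C) (N' : NL D) {F G : C ⥤ D} (e : F = G)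
    (h : ∀ x, ∀ l ∈ N.s x, F.map l ∈ N'.s (F.obj x))
    (h' : ∀ x, ∀ l ∈ N.s x, G.map l ∈ N'.s (G.obj x)) : mapE N N' F h = mapE N N' G h' := by
  subst e
  rfl

theorem mapE_id (N : NL C) (h : ∀ x, ∀ l ∈ N.s x, (𝟭 C).map l ∈ N.s ((𝟭 C).obj x)) :
    mapE N N (𝟭 C) h = 𝟭 (Ext N) := rfl

universe v'' u''

theorem mapE_comp {E : Type u''} [Groupoid.{v''} E] (N : NL C) (N' : NL D) (N'' : NL E)
    (F : C ⥤ D) (G : D ⥤ E)
    (h : ∀ x, ∀ l ∈ N.s x, F.map l ∈ N'.s (F.obj x))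
    (h' : ∀ x, ∀ l ∈ N'.s x, G.map l ∈ N''.s (G.obj x))
    (h'' : ∀ x, ∀ l ∈ N.s x, (F ⋙ G).map l ∈ N''.s ((F ⋙ G).obj x)) :
    mapE N N'' (F ⋙ G) h'' = mapE N N' F h ⋙ mapE N' N'' G h' := rfl

/-- The projection of the extension. -/
def proj (N : NL C) : Ext N ⥤ C where
  obj a := a.pt
  map f := f.p

/-- A section of the projection. -/
noncomputable def sec (N : NL C) : C ⥤ Ext N where
  obj x := ⟨x⟩
  map γ := ⟨γ, 0⟩
  map_comp γ δ := by
    refine Ext.Hom.ext rfl ?_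
    refine LinearMap.ext fun G => ?_
    simp [Ext.comp_n]

theorem IsVHom.commute {G : Type*} [Group G] {F : G → ℚ} (h : IsVHom F) {a b : G}
    (hab : a * b = b * a) : F (a * b) = F a + F b := by
  obtain ⟨⟨H, hH, ad⟩, p⟩ := h
  obtain ⟨m, hm, am⟩ := exists_pow_mem H hH a
  obtain ⟨k, hk, bk⟩ := exists_pow_mem H hH b
  have h1 : F ((a * b) ^ (m * k)) = F (a ^ (m * k)) + F (b ^ (m * k)) := by
    rw [(show Commute a b from hab).mul_pow]
    refine ad _ ?_ _ ?_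
    · rw [pow_mul]; exact H.pow_mem am _
    · rw [mul_comm m k, pow_mul]; exact H.pow_mem bk _
  rw [p, p, p] at h1
  have h2 : ((m * k : ℕ) : ℚ) ≠ 0 := by
    exact_mod_cast Nat.mul_ne_zero hm hk
  have h3 : ((m * k : ℕ) : ℚ) * F (a * b) = ((m * k : ℕ) : ℚ) * (F a + F b) := by
    rw [h1]; ring
  exact mul_left_cancel₀ h2 h3

end Pool.Agent.K4H21.PL
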