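import Pool.Agent.K4H21.PL.Ext

/-!
Functors of groupoids with unique lifting.
-/

set_option autoImplicit false

open CategoryTheory

namespace Pool.Agent.K4H21.PL

universe v u v' u'

variable {C : Type u} [Groupoid.{v} C] {D : Type u'} [Groupoid.{v'} D]

/-- Unique lifting. -/
def UL (F : C ⥤ D) : Prop := ∀ x : C, Function.Bijective (F.toPrefunctor.star x)

theorem UL.exists_lift {F : C ⥤ D} (hF : UL F) (x : C) (y : D) (γ : F.obj x ⟶ y) :
    ∃ (x' : C) (δ : x ⟶ x') (h : F.obj x' = y), γ = F.map δ ≫ eqToHom h := by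
  obtain ⟨⟨x', δ⟩, h⟩ := (hF x).2 ⟨y, γ⟩
  cases h
  exact ⟨x', δ, rfl, (Category.comp_id _).symm⟩

theorem UL.map_inj {F : C ⥤ D} (hF : UL F) {x x' : C} (δ δ' : x ⟶ x')
    (h : F.map δ = F.map δ') : δ = δ' := by
  have h1 : F.toPrefunctor.star x ⟨x', δ⟩ = F.toPrefunctor.star x ⟨x', δ'⟩ := by
    show (⟨_, F.map δ⟩ : Quiver.Star _) = ⟨_, F.map δ'⟩
    rw [h]
  have h2 := (hF x).1 h1
  simpa using h2

theorem UL.finiteIndex {F : C ⥤ D} (hF : UL F) (x : C)
    (hfin : Finite {x' : C // F.obj x' = F.obj x}) :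
    (F.mapVertexGroup x).range.FiniteIndex := by
  classical
  have key : ∀ g : (F.obj x ⟶ F.obj x), ∃ (x' : C) (δ : x ⟶ x') (h : F.obj x' = F.obj x),
      Groupoid.inv g = F.map δ ≫ eqToHom h := fun g => hF.exists_lift x _ _
  choose e δ h hδ using key
  have h1 : ∀ g g' : (F.obj x ⟶ F.obj x), e g = e g' →
      g⁻¹ * g' ∈ (F.mapVertexGroup x).range := by
    intro g g' hgg
    have h2 := hδ g
    have h3 := hδ g'
    have h4 : g' = Groupoid.inv (F.map (δ g') ≫ eqToHom (h g')) := by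
      rw [← h3]; simp
    have h5 : ∀ (y : C) (hy : e g = y) (d : x ⟶ y) (hh : F.obj y = F.obj x),
        Groupoid.inv g ≫ Groupoid.inv (F.map d ≫ eqToHom hh) ∈ (F.mapVertexGroup x).range := by
      intro y hy d hh
      subst hy
      rw [h2]
      refine ⟨δ g ≫ Groupoid.inv d, ?_⟩
      simp
    have h6 := h5 (e g') hgg (δ g') (h g')
    rw [← h4] at h6
    exact h6
  have := hfin
  have : Finite ((F.obj x ⟶ F.obj x) ⧸ (F.mapVertexGroup x).range) := by
    refine Finite.of_injective (β := {x' : C // F.obj x' = F.obj x})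
      (fun q => ⟨e q.out, h _⟩) ?_
    intro q q' hq
    have h2 := h1 _ _ (congrArg Subtype.val hq)
    have h3 : (QuotientGroup.mk q.out : (F.obj x ⟶ F.obj x) ⧸ (F.mapVertexGroup x).range)
        = QuotientGroup.mk q'.out := QuotientGroup.eq.2 h2
    simpa using h3
  exact Subgroup.finiteIndex_of_finite_quotient

theorem UL.exists_pow {F : C ⥤ D} (hF : UL F) (x : C)
    (hfin : Finite {x' : C // F.obj x' = F.obj x}) (g : F.obj x ⟶ F.obj x) :
    ∃ n : ℕ, n ≠ 0 ∧ ∃ r : x ⟶ x, F.map r = g ^ n := by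
  obtain ⟨n, hn, r, hr⟩ := exists_pow_mem _ (hF.finiteIndex x hfin) g
  exact ⟨n, hn, r, hr⟩

theorem map_pow' (F : C ⥤ D) (x : C) (r : x ⟶ x) (n : ℕ) : F.map (r ^ n) = (F.map r) ^ n :=
  map_pow (F.mapVertexGroup x) r n

theorem map_mul' (F : C ⥤ D) (x : C) (r s : x ⟶ x) : F.map (r * s) = F.map r * F.map s :=
  map_mul (F.mapVertexGroup x) r s

/-- Pull-back is injective. -/
theorem UL.pull_inj {F : C ⥤ D} (hF : UL F) (N : NL C) (N' : NL D)
    (h : ∀ x, ∀ l ∈ N.s x, F.map l ∈ N'.s (F.obj x)) (x : C)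
    (hfin : Finite {x' : C // F.obj x' = F.obj x}) :
    Function.Injective (pull N N' F h x) := by
  intro G G' e
  apply Subtype.ext
  funext g
  obtain ⟨n, hn, r, hr⟩ := hF.exists_pow x hfin g
  have h1 : G.1 (F.map r) = G'.1 (F.map r) := by
    rw [← pull_apply N N' F h, ← pull_apply N N' F h, e]
  rw [hr, G.2.1.pow, G'.2.1.pow] at h1
  exact mul_left_cancel₀ (by exact_mod_cast hn) h1

/-- Pull-back is surjective if loops of `N'` have powers which lift to loops of `N`. -/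
theorem UL.pull_surj {F : C ⥤ D} (hF : UL F) (N : NL C) (N' : NL D)
    (h : ∀ x, ∀ l ∈ N.s x, F.map l ∈ N'.s (F.obj x)) (x : C)
    (hfin : Finite {x' : C // F.obj x' = F.obj x})
    (hl : ∀ l ∈ N'.s (F.obj x), ∃ n : ℕ, n ≠ 0 ∧ ∃ r ∈ N.s x, F.map r = l ^ n) :
    Function.Surjective (pull N N' F h x) := by
  classical
  intro G
  have key := fun g => hF.exists_pow x hfin g
  choose n hn r hr using key
  have wd : ∀ (g : F.obj x ⟶ F.obj x) (k : ℕ) (hk : k ≠ 0) (s : x ⟶ x) (hs : F.map s = g ^ k),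
      G.1 (r g) / n g = G.1 s / k := by
    intro g k hk s hs
    have h1 : (r g) ^ k = s ^ (n g) := by
      apply hF.map_inj
      rw [map_pow', map_pow', hr, hs, ← pow_mul, ← pow_mul, mul_comm]
    have h2 := congrArg G.1 h1
    rw [G.2.1.pow, G.2.1.pow] at h2
    have h3 : (n g : ℚ) ≠ 0 := by exact_mod_cast hn g
    have h4 : (k : ℚ) ≠ 0 := by exact_mod_cast hk
    rw [div_eq_div_iff h3 h4, mul_comm, h2, mul_comm]
  have hv : IsVHom (fun g : (F.obj x ⟶ F.obj x) => G.1 (r g) / n g) := by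
    obtain ⟨⟨H, hH, ad⟩, p⟩ := G.2.1
    refine ⟨⟨H.map (F.mapVertexGroup x), ⟨?_⟩, ?_⟩, ?_⟩
    · rw [Subgroup.index_map]
      refine mul_ne_zero ?_ (hF.finiteIndex x hfin).index_ne_zero
      intro h0
      have := Subgroup.index_dvd_of_le (le_sup_left : H ≤ H ⊔ (F.mapVertexGroup x).ker)
      rw [h0] at this
      exact hH.index_ne_zero (Nat.eq_zero_of_zero_dvd this)
    · rintro _ ⟨a, ha, rfl⟩ _ ⟨b, hb, rfl⟩
      have h1 : ∀ c : x ⟶ x, G.1 (r (F.map c)) / n (F.map c) = G.1 c := by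
        intro c
        rw [wd (F.map c) 1 one_ne_zero c (by simp)]
        simp
      have h2 := ad a ha b hb
      show G.1 (r (F.map a * F.map b)) / n (F.map a * F.map b) = G.1 (r (F.map a)) / n (F.map a)
        + G.1 (r (F.map b)) / n (F.map b)
      rw [← map_mul', h1, h1, h1]
      exact h2
    · intro g k
      show G.1 (r (g ^ k)) / n (g ^ k) = k * (G.1 (r g) / n g)
      rw [wd (g ^ k) (n g) (hn g) ((r g) ^ k) (by rw [map_pow', hr, ← pow_mul, ← pow_mul,
        mul_comm]), G.2.1.pow, mul_div_assoc]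
  refine ⟨⟨fun g => G.1 (r g) / n g, hv, ?_⟩, ?_⟩
  · intro l hl'
    obtain ⟨k, hk, s, hs, hs'⟩ := hl l hl'
    show G.1 (r l) / n l = 0
    rw [wd l k hk s hs', G.2.2 s hs, zero_div]
  · apply Subtype.ext
    funext c
    show G.1 (r (F.map c)) / n (F.map c) = G.1 c
    rw [wd (F.map c) 1 one_ne_zero c (by simp)]
    simp

end Pool.Agent.K4H21.PL
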