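import Pool.Agent.K4H21.PL.Lift
import Pool.Agent.K4H21.PL.Abs

set_option autoImplicit false

open CategoryTheory

namespace Pool.Agent.K4H21.PL

universe v u w z

variable {𝒱 : Type w} [Category.{z} 𝒱] {P : 𝒱 ⥤ Grpd.{v, u}} {Q : 𝒱 → Prop}
  {con : 𝒱 → Prop} {Et : ∀ {X Y : 𝒱}, (X ⟶ Y) → Prop}

theorem Pi1Like.ul (hP : Pi1Like con Et P) {X Y : 𝒱} (f : X ⟶ Y) (hf : Et f) : UL (fm P f) :=
  hP.lift f hf

/-- Functor equalities and maps. -/
theorem congr_loop {C : Type u} [Groupoid.{v} C] {D : Type u} [Groupoid.{v} D] {F G : C ⥤ D}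
    (h : F = G) {v : C} (m : v ⟶ v) :
    F.map m = eqToHom (by rw [h]) ≫ G.map m ≫ eqToHom (by rw [h]) := by
  subst h
  simp

theorem map_ginv {C : Type u} [Groupoid.{v} C] {D : Type u} [Groupoid.{v} D] (F : C ⥤ D)
    {a b : C} (d : a ⟶ b) : F.map (Groupoid.inv d) = Groupoid.inv (F.map d) := by
  simp [Groupoid.inv_eq_inv]

theorem aux1 {C : Type u} [Groupoid.{v} C] {a b c : C} (δ : a ⟶ b) (e : b = c) (m : b ⟶ b) :
    δ ≫ m ≫ Groupoid.inv δ
      = (δ ≫ eqToHom e) ≫ (eqToHom e.symm ≫ m ≫ eqToHom e) ≫ Groupoid.inv (δ ≫ eqToHom e) := by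
  subst e
  simp

theorem aux2 {C : Type u} [Groupoid.{v} C] {a c : C} (e : a = c) :
    𝟙 a = eqToHom e ≫ (eqToHom e.symm ≫ 𝟙 a ≫ eqToHom e) ≫ Groupoid.inv (eqToHom e) := by
  subst e
  simp

theorem proj_sec {C : Type u} [Groupoid.{v} C] (N : NL C) (h0 : ∀ (x : C) (F : M N x), F = 0) :
    proj N ⋙ sec N = 𝟭 (Ext N) := by
  refine CategoryTheory.Functor.hext (fun a => rfl) ?_
  intro a b f
  refine heq_of_eq ?_
  refine Ext.Hom.ext rfl ?_
  refine LinearMap.ext fun F => ?_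
  show (0 : Module.Dual ℚ (M N a.pt)) F = f.n F
  rw [h0 a.pt F]
  exact (map_zero f.n).symm

/-- Hypotheses: base change of étale morphisms, finite fibres, constant maps. -/
structure Base (P : 𝒱 ⥤ Grpd.{v, u}) (Q : 𝒱 → Prop) (Et : ∀ {X Y : 𝒱}, (X ⟶ Y) → Prop) :
    Prop where
  pull : ∀ {V X X' : 𝒱} (_ : Q V) (g : V ⟶ X) (f : X' ⟶ X) (_ : Et f) (v : P.obj V)
    (x' : P.obj X'), (fm P f).obj x' = (fm P g).obj v →
    ∃ (V' : 𝒱) (_ : Q V') (h : V' ⟶ V) (k : V' ⟶ X') (v' : P.obj V'), Et h ∧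
      h ≫ g = k ≫ f ∧ (fm P h).obj v' = v ∧ (fm P k).obj v' = x'
  fin : ∀ {X Y : 𝒱} (f : X ⟶ Y), Et f → ∀ x : P.obj X,
    Finite {x' : P.obj X // (fm P f).obj x' = (fm P f).obj x}
  const : ∀ {V Y : 𝒱} (_ : Q V) (y : P.obj Y), ∃ c : V ⟶ Y,
    fm P c = (Functor.const (P.obj V)).obj y

/-- Powers of loops coming from `Q` lift. -/
theorem loops_lift (hP : Pi1Like con Et P) (hB : Base P Q Et) {X Y : 𝒱} (f : X ⟶ Y)
    (hf : Et f) (x : P.obj X) (l : (fm P f).obj x ⟶ (fm P f).obj x)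
    (hl : l ∈ (loops P Q Y).s ((fm P f).obj x)) :
    ∃ n : ℕ, n ≠ 0 ∧ ∃ r ∈ (loops P Q X).s x, (fm P f).map r = l ^ n := by
  obtain ⟨V, hV, F, ⟨g, rfl⟩, v, m, δ, rfl⟩ := hl
  obtain ⟨w, d, hw, hd⟩ := (hP.ul f hf).exists_lift x _ δ
  obtain ⟨V', hV', h, k, v', hh, hk, hv, hkw⟩ := hB.pull hV g f hf v w hw
  subst hv
  subst hkw
  obtain ⟨n, hn, r, hr⟩ := (hP.ul h hh).exists_pow v' (hB.fin h hh v') m
  refine ⟨n, hn, d ≫ (fm P k).map r ≫ Groupoid.inv d, ⟨V', hV', fm P k, ⟨k, rfl⟩, v', r, d,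
    rfl⟩, ?_⟩
  have e1 : fm P k ⋙ fm P f = fm P h ⋙ fm P g := by
    rw [← fm_comp, ← fm_comp, hk]
  have e2 := congr_loop e1 r
  have e3 : ∀ j : ℕ, (δ ≫ (fm P g).map m ≫ Groupoid.inv δ) ^ j
      = δ ≫ (fm P g).map (m ^ j) ≫ Groupoid.inv δ := by
    intro j
    have := map_pow (Groupoid.vertexGroupIsomOfMap (Groupoid.inv δ)) ((fm P g).map m) j
    rw [← map_pow'] at this
    simpa using this.symm
  rw [e3, ← hr]
  have e4 : (fm P g).map ((fm P h).map r) = (fm P h ⋙ fm P g).map r := rfl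
  have e5 : (fm P f).map ((fm P k).map r) = (fm P k ⋙ fm P f).map r := rfl
  rw [e4, Functor.map_comp, Functor.map_comp, e5, e2, hd]
  simp

/-- (3) for the extended functor. -/
theorem R_lift (hP : Pi1Like con Et P) (hB : Base P Q Et) {X Y : 𝒱} (f : X ⟶ Y)
    (hf : Et f) (x : Ext (loops P Q X)) :
    Function.Bijective ((mapE _ _ (fm P f) (loops_map P Q f)).toPrefunctor.star x) := by
  have inj := (hP.ul f hf).pull_inj _ _ (loops_map P Q f) x.pt (hB.fin f hf x.pt)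
  have surj := (hP.ul f hf).pull_surj _ _ (loops_map P Q f) x.pt (hB.fin f hf x.pt)
    (loops_lift hP hB f hf x.pt)
  constructor
  · rintro ⟨⟨a⟩, ⟨pa, na⟩⟩ ⟨⟨b⟩, ⟨pb, nb⟩⟩ h
    have h1 : (fm P f).toPrefunctor.star x.pt ⟨a, pa⟩ = (fm P f).toPrefunctor.star x.pt ⟨b, pb⟩ := by
      exact congrArg (fun s : Quiver.Star ((mapE _ _ (fm P f) (loops_map P Q f)).obj x) =>
        (⟨s.1.pt, s.2.p⟩ : Quiver.Star ((fm P f).obj x.pt))) h
    have h2 := (hP.lift f hf x.pt).1 h1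
    cases h2
    have h3 : na ∘ₗ pull _ _ (fm P f) (loops_map P Q f) x.pt
        = nb ∘ₗ pull _ _ (fm P f) (loops_map P Q f) x.pt := by
      exact congrArg (fun s : Quiver.Star ((mapE _ _ (fm P f) (loops_map P Q f)).obj x) =>
        s.2.n) h
    have h4 : na = nb := by
      refine LinearMap.ext fun G => ?_
      obtain ⟨G', rfl⟩ := surj G
      exact LinearMap.congr_fun h3 G'
    rw [h4]
  · rintro ⟨⟨y⟩, ⟨p, n⟩⟩
    obtain ⟨⟨x', δ⟩, h⟩ := (hP.lift f hf x.pt).2 ⟨y, p⟩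
    cases h
    let e := LinearEquiv.ofBijective (pull _ _ (fm P f) (loops_map P Q f) x.pt) ⟨inj, surj⟩
    have hn : (n ∘ₗ e.symm.toLinearMap) ∘ₗ pull _ _ (fm P f) (loops_map P Q f) x.pt = n := by
      refine LinearMap.ext fun G => ?_
      show n (e.symm (e G)) = n G
      rw [e.symm_apply_apply]
    refine ⟨⟨⟨x'⟩, ⟨δ, n ∘ₗ e.symm.toLinearMap⟩⟩, ?_⟩
    exact congrArg (fun m : Module.Dual ℚ (M (loops P Q Y) ((fm P f).obj x.pt)) =>
      (⟨⟨(fm P f).obj x'⟩, ⟨(fm P f).map δ, m⟩⟩ :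
        Quiver.Star ((mapE _ _ (fm P f) (loops_map P Q f)).obj x))) hn

theorem IsProd.symm {X Y Z : 𝒱} {p : Z ⟶ X} {q : Z ⟶ Y} (h : IsProd p q) : IsProd q p := by
  intro V a b
  obtain ⟨u, hu, huu⟩ := h V b a
  exact ⟨u, ⟨hu.2, hu.1⟩, fun w hw => huu w ⟨hw.2, hw.1⟩⟩

section Prod

variable (hP : Pi1Like con Et P) {X Y Z : 𝒱} (p : Z ⟶ X) (q : Z ⟶ Y) (h : IsProd p q)

include hP h in
theorem ext_prod {z z' : P.obj Z} {a b : z ⟶ z'} (h1 : (fm P p).map a = (fm P p).map b)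
    (h2 : (fm P q).map a = (fm P q).map b) : a = b :=
  (hP.prodMap p q h z z').1 (Prod.ext h1 h2)

include hP h in
theorem exists_incl (z : P.obj Z) (g : (fm P p).obj z ⟶ (fm P p).obj z) :
    ∃ a : z ⟶ z, (fm P p).map a = g ∧ (fm P q).map a = 𝟙 _ := by
  obtain ⟨a, ha⟩ := (hP.prodMap p q h z z).2 (g, 𝟙 _)
  exact ⟨a, congrArg Prod.fst ha, congrArg Prod.snd ha⟩

/-- The inclusion of loops of the first factor. -/
noncomputable def incl (z : P.obj Z) :
    ((fm P p).obj z ⟶ (fm P p).obj z) →* (z ⟶ z) where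
  toFun g := (exists_incl hP p q h z g).choose
  map_one' := by
    refine ext_prod hP p q h ?_ ?_
    · rw [(exists_incl hP p q h z 1).choose_spec.1]
      exact ((fm P p).map_id z).symm
    · rw [(exists_incl hP p q h z 1).choose_spec.2]
      exact ((fm P q).map_id z).symm
  map_mul' a b := by
    refine ext_prod hP p q h ?_ ?_
    · rw [(exists_incl hP p q h z (a * b)).choose_spec.1, map_mul',
        (exists_incl hP p q h z a).choose_spec.1, (exists_incl hP p q h z b).choose_spec.1]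
    · rw [(exists_incl hP p q h z (a * b)).choose_spec.2, map_mul',
        (exists_incl hP p q h z a).choose_spec.2, (exists_incl hP p q h z b).choose_spec.2]
      exact (Category.comp_id _).symm

theorem incl_p (z : P.obj Z) (g : (fm P p).obj z ⟶ (fm P p).obj z) :
    (fm P p).map (incl hP p q h z g) = g := (exists_incl hP p q h z g).choose_spec.1

theorem incl_q (z : P.obj Z) (g : (fm P p).obj z ⟶ (fm P p).obj z) :
    (fm P q).map (incl hP p q h z g) = 𝟙 _ := (exists_incl hP p q h z g).choose_spec.2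

theorem incl_loops (hB : Base P Q Et) (z : P.obj Z) (l : (fm P p).obj z ⟶ (fm P p).obj z)
    (hl : l ∈ (loops P Q X).s ((fm P p).obj z)) :
    incl hP p q h z l ∈ (loops P Q Z).s z := by
  obtain ⟨V, hV, F, ⟨c, rfl⟩, v, m, δ, hl⟩ := hl
  obtain ⟨k, hk⟩ := hB.const hV ((fm P q).obj z)
  obtain ⟨u, ⟨hu1, hu2⟩, -⟩ := h V c k
  have e1 : fm P u ⋙ fm P p = fm P c := by rw [← fm_comp, hu1]
  have e2 : fm P u ⋙ fm P q = (Functor.const (P.obj V)).obj ((fm P q).obj z) := by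
    rw [← fm_comp, hu2, hk]
  have o1 : (fm P c).obj v = (fm P p).obj ((fm P u).obj v) := by rw [← e1]; rfl
  have o2 : (fm P q).obj z = (fm P q).obj ((fm P u).obj v) := by
    have := congrArg (fun F => F.obj v) e2
    exact this.symm
  obtain ⟨d, hd⟩ := (hP.prodMap p q h z ((fm P u).obj v)).2 (δ ≫ eqToHom o1, eqToHom o2)
  have hd1 : (fm P p).map d = δ ≫ eqToHom o1 := congrArg Prod.fst hd
  have hd2 : (fm P q).map d = eqToHom o2 := congrArg Prod.snd hd
  have c1 : (fm P p).map ((fm P u).map m) = eqToHom o1.symm ≫ (fm P c).map m ≫ eqToHom o1 :=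
    congr_loop e1 m
  have c2 : (fm P q).map ((fm P u).map m) = eqToHom o2.symm ≫ 𝟙 _ ≫ eqToHom o2 :=
    congr_loop e2 m
  refine ⟨V, hV, fm P u, ⟨u, rfl⟩, v, m, d, ?_⟩
  refine ext_prod hP p q h ?_ ?_
  · rw [incl_p, Functor.map_comp, Functor.map_comp, c1, hl, map_ginv, hd1]
    exact aux1 δ o1 _
  · rw [incl_q, Functor.map_comp, Functor.map_comp, c2, map_ginv, hd2]
    exact aux2 o2

/-- Restriction to the first factor. -/
noncomputable def res (hB : Base P Q Et) (z : P.obj Z) (F : M (loops P Q Z) z) :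
    M (loops P Q X) ((fm P p).obj z) :=
  ⟨fun g => F.1 (incl hP p q h z g), F.2.1.comp (incl hP p q h z),
    fun l hl => F.2.2 _ (incl_loops hP p q h hB z l hl)⟩

theorem res_apply (hB : Base P Q Et) (z : P.obj Z) (F : M (loops P Q Z) z)
    (g : (fm P p).obj z ⟶ (fm P p).obj z) :
    (res hP p q h hB z F).1 g = F.1 (incl hP p q h z g) := rfl

/-- Restriction to the first factor, linear. -/
noncomputable def resL (hB : Base P Q Et) (z : P.obj Z) :
    M (loops P Q Z) z →ₗ[ℚ] M (loops P Q X) ((fm P p).obj z) where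
  toFun F := res hP p q h hB z F
  map_add' _ _ := rfl
  map_smul' _ _ := rfl

theorem decomp (hB : Base P Q Et) (z : P.obj Z) (F : M (loops P Q Z) z) :
    pull _ _ (fm P p) (loops_map P Q p) z (res hP p q h hB z F)
      + pull _ _ (fm P q) (loops_map P Q q) z (res hP q p h.symm hB z F) = F := by
  apply Subtype.ext
  funext a
  show F.1 (incl hP p q h z ((fm P p).map a)) + F.1 (incl hP q p h.symm z ((fm P q).map a))
    = F.1 a
  rw [← F.2.1.commute]
  · refine congrArg F.1 (ext_prod hP p q h ?_ ?_)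
    · rw [map_mul', incl_p, incl_q]
      exact Category.comp_id _
    · rw [map_mul', incl_p, incl_q]
      exact Category.id_comp _
  · refine ext_prod hP p q h ?_ ?_
    · rw [map_mul', map_mul', incl_p, incl_q]
      exact (Category.comp_id _).trans (Category.id_comp _).symm
    · rw [map_mul', map_mul', incl_p, incl_q]
      exact (Category.id_comp _).trans (Category.comp_id _).symm

theorem res_add (hB : Base P Q Et) (z : P.obj Z) (F : M (loops P Q X) ((fm P p).obj z))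
    (G : M (loops P Q Y) ((fm P q).obj z)) :
    res hP p q h hB z (pull _ _ (fm P p) (loops_map P Q p) z F
      + pull _ _ (fm P q) (loops_map P Q q) z G) = F := by
  apply Subtype.ext
  funext g
  show F.1 ((fm P p).map (incl hP p q h z g)) + G.1 ((fm P q).map (incl hP p q h z g)) = F.1 g
  rw [incl_p, incl_q]
  have : G.1 (𝟙 _) = 0 := G.2.1.one
  rw [this, add_zero]

include hP h in
theorem R_prodMap (hB : Base P Q Et) (z z' : Ext (loops P Q Z)) :
    Function.Bijective (fun a : z ⟶ z' =>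
      ((mapE _ _ (fm P p) (loops_map P Q p)).map a,
        (mapE _ _ (fm P q) (loops_map P Q q)).map a)) := by
  constructor
  · rintro ⟨pa, na⟩ ⟨pb, nb⟩ e
    have e1 := congrArg Prod.fst e
    have e2 := congrArg Prod.snd e
    have e3 : (fm P p).map pa = (fm P p).map pb := congrArg Ext.Hom.p e1
    have e4 : (fm P q).map pa = (fm P q).map pb := congrArg Ext.Hom.p e2
    have e5 : na ∘ₗ pull _ _ (fm P p) (loops_map P Q p) z.pt
      = nb ∘ₗ pull _ _ (fm P p) (loops_map P Q p) z.pt := congrArg Ext.Hom.n e1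
    have e6 : na ∘ₗ pull _ _ (fm P q) (loops_map P Q q) z.pt
      = nb ∘ₗ pull _ _ (fm P q) (loops_map P Q q) z.pt := congrArg Ext.Hom.n e2
    refine Ext.Hom.ext (ext_prod hP p q h e3 e4) ?_
    refine LinearMap.ext fun F => ?_
    rw [← decomp hP p q h hB z.pt F, map_add, map_add]
    exact congrArg₂ (· + ·) (LinearMap.congr_fun e5 _) (LinearMap.congr_fun e6 _)
  · rintro ⟨A, B⟩
    obtain ⟨a, ha⟩ := (hP.prodMap p q h z.pt z'.pt).2 (A.p, B.p)
    obtain ⟨n1, hn1⟩ : ∃ n1 : Module.Dual ℚ (M (loops P Q X) ((fm P p).obj z.pt)), n1 = A.n :=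
      ⟨_, rfl⟩
    obtain ⟨n2, hn2⟩ : ∃ n2 : Module.Dual ℚ (M (loops P Q Y) ((fm P q).obj z.pt)), n2 = B.n :=
      ⟨_, rfl⟩
    have k1 : (n1 ∘ₗ resL hP p q h hB z.pt + n2 ∘ₗ resL hP q p h.symm hB z.pt) ∘ₗ
        pull _ _ (fm P p) (loops_map P Q p) z.pt = n1 := by
      refine LinearMap.ext fun F => ?_
      show n1 (res hP p q h hB z.pt (pull _ _ (fm P p) (loops_map P Q p) z.pt F))
        + n2 (res hP q p h.symm hB z.pt (pull _ _ (fm P p) (loops_map P Q p) z.pt F)) = n1 F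
      have e1 := res_add hP p q h hB z.pt F 0
      have e2 := res_add hP q p h.symm hB z.pt 0 F
      rw [map_zero, add_zero] at e1
      rw [map_zero, zero_add] at e2
      rw [e1, e2, map_zero, add_zero]
    have k2 : (n1 ∘ₗ resL hP p q h hB z.pt + n2 ∘ₗ resL hP q p h.symm hB z.pt) ∘ₗ
        pull _ _ (fm P q) (loops_map P Q q) z.pt = n2 := by
      refine LinearMap.ext fun F => ?_
      show n1 (res hP p q h hB z.pt (pull _ _ (fm P q) (loops_map P Q q) z.pt F))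
        + n2 (res hP q p h.symm hB z.pt (pull _ _ (fm P q) (loops_map P Q q) z.pt F)) = n2 F
      have e1 := res_add hP q p h.symm hB z.pt F 0
      have e2 := res_add hP p q h hB z.pt 0 F
      rw [map_zero, add_zero] at e1
      rw [map_zero, zero_add] at e2
      rw [e1, e2, map_zero, zero_add]
    refine ⟨⟨a, n1 ∘ₗ resL hP p q h hB z.pt + n2 ∘ₗ resL hP q p h.symm hB z.pt⟩, ?_⟩
    refine Prod.ext ?_ ?_
    · exact Ext.Hom.ext (congrArg Prod.fst ha) (k1.trans hn1)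
    · exact Ext.Hom.ext (congrArg Prod.snd ha) (k2.trans hn2)

include hP h in
theorem R_prodObj : Function.Bijective (fun z : Ext (loops P Q Z) =>
    ((mapE _ _ (fm P p) (loops_map P Q p)).obj z,
      (mapE _ _ (fm P q) (loops_map P Q q)).obj z)) := by
  constructor
  · rintro ⟨a⟩ ⟨b⟩ e
    have e1 : (fm P p).obj a = (fm P p).obj b := congrArg Ext.pt (congrArg Prod.fst e)
    have e2 : (fm P q).obj a = (fm P q).obj b := congrArg Ext.pt (congrArg Prod.snd e)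
    have := (hP.prodObj p q h).1 (Prod.ext e1 e2)
    rw [this]
  · rintro ⟨⟨x⟩, ⟨y⟩⟩
    obtain ⟨a, ha⟩ := (hP.prodObj p q h).2 (x, y)
    refine ⟨⟨a⟩, Prod.ext ?_ ?_⟩
    · exact congrArg Ext.mk (congrArg Prod.fst ha)
    · exact congrArg Ext.mk (congrArg Prod.snd ha)

end Prod

/-- The extended functor is again `π₁`-like. -/
theorem R_pi1Like (hP : Pi1Like con Et P) (hB : Base P Q Et) : Pi1Like con Et (R P Q) where
  prodObj p q h := R_prodObj hP p q h
  prodMap p q h := R_prodMap hP p q h hB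
  conn X hX x y := by
    obtain ⟨a⟩ := hP.conn X hX x.pt y.pt
    exact ⟨(⟨a, 0⟩ : Ext.Hom x y)⟩
  lift f hf x := R_lift hP hB f hf x

/-- The projection `R ⟶ P`. -/
noncomputable def prj (P : 𝒱 ⥤ Grpd.{v, u}) (Q : 𝒱 → Prop) : R P Q ⟶ P where
  app X := proj (loops P Q X)
  naturality _ _ _ := rfl

theorem M_eq_zero {X : 𝒱} (hX : Q X) (x : P.obj X) (F : M (loops P Q X) x) : F = 0 := by
  apply Subtype.ext
  funext l
  refine F.2.2 l ⟨X, hX, 𝟭 _, ⟨𝟙 X, fm_id P X⟩, x, l, 𝟙 x, ?_⟩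
  simp

theorem isIso_prj {X : 𝒱} (hX : Q X) : IsIso ((prj P Q).app X) := by
  exact ⟨sec (loops P Q X), proj_sec _ (M_eq_zero hX), rfl⟩

/-- Divisible elements. -/
theorem divisible {X : 𝒱} (x : P.obj X) (hM : ∃ F : M (loops P Q X) x, F ≠ 0) :
    ∃ g : (⟨x⟩ : Ext (loops P Q X)) ⟶ ⟨x⟩, g ≠ 𝟙 _ ∧ ∀ n : ℕ, n ≠ 0 →
      ∃ r : (⟨x⟩ : Ext (loops P Q X)) ⟶ ⟨x⟩, r ^ n = g := by
  obtain ⟨F, hF⟩ := hM
  have h1 : ∃ φ : Module.Dual ℚ (M (loops P Q X) x), φ F ≠ 0 := by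
    by_contra hc
    push Not at hc
    exact hF ((Module.forall_dual_apply_eq_zero_iff ℚ F).1 hc)
  obtain ⟨φ, hφ⟩ := h1
  let u : Module.Dual ℚ (M (loops P Q X) x) → ((⟨x⟩ : Ext (loops P Q X)) ⟶ ⟨x⟩) :=
    fun ψ => ⟨𝟙 x, ψ⟩
  have hu : ∀ ψ ψ', u ψ * u ψ' = u (ψ + ψ') := by
    intro ψ ψ'
    refine Ext.Hom.ext (Category.comp_id _) ?_
    refine LinearMap.ext fun G => ?_
    show ψ G + ψ' (T _ (𝟙 x) G) = ψ G + ψ' G
    rw [T_id]
  have hu1 : u 0 = 1 := rfl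
  have hup : ∀ (n : ℕ) ψ, (u ψ) ^ n = u (n • ψ) := by
    intro n ψ
    induction n with
    | zero => rw [pow_zero, zero_smul, hu1]
    | succ k ih => rw [pow_succ, ih, hu, succ_nsmul]
  refine ⟨u φ, ?_, ?_⟩
  · intro h
    have := congrArg Ext.Hom.n h
    have h2 : φ = 0 := this
    exact hφ (by rw [h2]; rfl)
  · intro n hn
    refine ⟨u ((n : ℚ)⁻¹ • φ), ?_⟩
    rw [hup]
    congr 1
    rw [← Nat.cast_smul_eq_nsmul ℚ, smul_smul, mul_inv_cancel₀ (by exact_mod_cast hn), one_smul]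

end Pool.Agent.K4H21.PL
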