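import Pool.Agent.K4H21.PL.Main

/-!
Invariance of `Pi1Like` under isomorphisms of functors, and literal equality on a class of objects.
-/

set_option autoImplicit false

open CategoryTheory

namespace Pool.Agent.K4H21.PL

universe v u w z

section Plain

variable {C : Type u} [Groupoid.{v} C] {D : Type u} [Groupoid.{v} D]

theorem obj_bij (F : C ⥤ D) (G : D ⥤ C) (h1 : F ⋙ G = 𝟭 C) (h2 : G ⋙ F = 𝟭 D) :
    Function.Bijective F.obj := by
  refine Function.bijective_iff_has_inverse.2 ⟨G.obj, fun x => ?_, fun y => ?_⟩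
  · exact Functor.congr_obj h1 x
  · exact Functor.congr_obj h2 y

theorem map_bij (F : C ⥤ D) (G : D ⥤ C) (h1 : F ⋙ G = 𝟭 C) (h2 : G ⋙ F = 𝟭 D) (x x' : C) :
    Function.Bijective (fun a : x ⟶ x' => F.map a) := by
  have : F.IsEquivalence := Functor.IsEquivalence.mk' G (eqToIso h1.symm) (eqToIso h2)
  exact (Functor.FullyFaithful.ofFullyFaithful F).map_bijective x x'

theorem star_bij (F : C ⥤ D) (G : D ⥤ C) (h1 : F ⋙ G = 𝟭 C) (h2 : G ⋙ F = 𝟭 D) : UL F := by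
  intro x
  have ho := obj_bij F G h1 h2
  constructor
  · rintro ⟨y, a⟩ ⟨y', b⟩ h
    have e1 : F.obj y = F.obj y' := congrArg Sigma.fst h
    have e2 := ho.1 e1
    subst e2
    have e3 : F.map a = F.map b := by
      have := (Sigma.mk.inj h).2
      exact eq_of_heq this
    rw [(map_bij F G h1 h2 x y).1 e3]
  · rintro ⟨y, c⟩
    obtain ⟨y', rfl⟩ := ho.2 y
    obtain ⟨a, ha⟩ := (map_bij F G h1 h2 x y').2 c
    exact ⟨⟨y', a⟩, by rw [← ha]; rfl⟩

variable {C1 : Type u} [Groupoid.{v} C1] {D1 : Type u} [Groupoid.{v} D1]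
  {C2 : Type u} [Groupoid.{v} C2] {D2 : Type u} [Groupoid.{v} D2]

theorem star_transfer (A : C ⥤ C1) (B : D ⥤ D1) (F : C ⥤ D) (F1 : C1 ⥤ D1)
    (e : A ⋙ F1 = F ⋙ B) (hF : UL F) (hF1 : UL F1) (hB : UL B) : UL A := by
  intro x
  have h1 : Function.Bijective ((F ⋙ B).toPrefunctor.star x) := (hB _).comp (hF x)
  rw [← e] at h1
  exact (Function.Bijective.of_comp_iff' (hF1 (A.obj x)) _).1 h1

theorem map_inj_transfer (A : C ⥤ C1) (B : D ⥤ D1) (F : C ⥤ D) (F1 : C1 ⥤ D1)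
    (e : A ⋙ F1 = F ⋙ B) {x y : C} {a b : x ⟶ y} (h : A.map a = A.map b) :
    B.map (F.map a) = B.map (F.map b) := by
  have e1 := Functor.congr_hom e a
  have e2 := Functor.congr_hom e b
  have e3 : (A ⋙ F1).map a = (A ⋙ F1).map b := congrArg F1.map h
  rw [e1, e2] at e3
  have e4 := (cancel_epi _).1 e3
  exact (cancel_mono _).1 e4

theorem prodMap_transfer (A1 : C ⥤ C1) (A2 : C ⥤ C2) (B1 : D ⥤ D1) (B2 : D ⥤ D2) (F : C ⥤ D)
    (F1 : C1 ⥤ D1) (F2 : C2 ⥤ D2) (e1 : A1 ⋙ F1 = F ⋙ B1) (e2 : A2 ⋙ F2 = F ⋙ B2)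
    (hF : ∀ x y : C, Function.Bijective (fun a : x ⟶ y => F.map a))
    (hF1 : ∀ x y : C1, Function.Bijective (fun a : x ⟶ y => F1.map a))
    (hF2 : ∀ x y : C2, Function.Bijective (fun a : x ⟶ y => F2.map a))
    (hB : ∀ x y : D, Function.Bijective (fun a : x ⟶ y => (B1.map a, B2.map a))) (x y : C) :
    Function.Bijective (fun a : x ⟶ y => (A1.map a, A2.map a)) := by
  constructor
  · intro a b h
    have h1 := map_inj_transfer A1 B1 F F1 e1 (congrArg Prod.fst h)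
    have h2 := map_inj_transfer A2 B2 F F2 e2 (congrArg Prod.snd h)
    exact (hF x y).1 ((hB _ _).1 (Prod.ext h1 h2))
  · rintro ⟨u1, u2⟩
    have o1 : ∀ x : C, B1.obj (F.obj x) = F1.obj (A1.obj x) := fun x =>
      (Functor.congr_obj e1 x).symm
    have o2 : ∀ x : C, B2.obj (F.obj x) = F2.obj (A2.obj x) := fun x =>
      (Functor.congr_obj e2 x).symm
    obtain ⟨c, hc⟩ := (hB (F.obj x) (F.obj y)).2
      (eqToHom (o1 x) ≫ F1.map u1 ≫ eqToHom (o1 y).symm,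
        eqToHom (o2 x) ≫ F2.map u2 ≫ eqToHom (o2 y).symm)
    obtain ⟨a, rfl⟩ := (hF x y).2 c
    have hc1 : B1.map (F.map a) = _ := congrArg Prod.fst hc
    have hc2 : B2.map (F.map a) = _ := congrArg Prod.snd hc
    refine ⟨a, Prod.ext ?_ ?_⟩
    · apply (hF1 _ _).1
      have k := Functor.congr_hom e1 a
      have k' : F1.map (A1.map a) = eqToHom (o1 x).symm ≫ B1.map (F.map a) ≫ eqToHom (o1 y) := k
      show F1.map (A1.map a) = F1.map u1
      rw [k', hc1]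
      simp
    · apply (hF2 _ _).1
      have k := Functor.congr_hom e2 a
      have k' : F2.map (A2.map a) = eqToHom (o2 x).symm ≫ B2.map (F.map a) ≫ eqToHom (o2 y) := k
      show F2.map (A2.map a) = F2.map u2
      rw [k', hc2]
      simp

end Plain

variable {𝒱 : Type w} [Category.{z} 𝒱] {con : 𝒱 → Prop} {Et : ∀ {X Y : 𝒱}, (X ⟶ Y) → Prop}

theorem Pi1Like.of_iso {R R' : 𝒱 ⥤ Grpd.{v, u}} (α : R' ≅ R) (h : Pi1Like con Et R) :
    Pi1Like con Et R' := by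
  have h1 : ∀ X : 𝒱, (α.hom.app X : R'.obj X ⥤ R.obj X) ⋙ (α.inv.app X : R.obj X ⥤ R'.obj X)
      = 𝟭 _ := fun X => α.hom_inv_id_app X
  have h2 : ∀ X : 𝒱, (α.inv.app X : R.obj X ⥤ R'.obj X) ⋙ (α.hom.app X : R'.obj X ⥤ R.obj X)
      = 𝟭 _ := fun X => α.inv_hom_id_app X
  have nat : ∀ {X Y : 𝒱} (f : X ⟶ Y), fm R' f ⋙ (α.hom.app Y : R'.obj Y ⥤ R.obj Y)
      = (α.hom.app X : R'.obj X ⥤ R.obj X) ⋙ fm R f := fun f => α.hom.naturality f
  have hob := fun X => obj_bij _ _ (h1 X) (h2 X)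
  have hmp := fun X => map_bij _ _ (h1 X) (h2 X)
  have hst := fun X => star_bij _ _ (h1 X) (h2 X)
  refine ⟨?_, ?_, ?_, ?_⟩
  · intro X Y Z p q hpq
    have k := (h.prodObj p q hpq).comp (hob Z)
    have k2 : (fun s : R'.obj X × R'.obj Y => ((α.hom.app X : R'.obj X ⥤ R.obj X).obj s.1,
        (α.hom.app Y : R'.obj Y ⥤ R.obj Y).obj s.2)) ∘ toProdObj R' p q
        = toProdObj R p q ∘ (α.hom.app Z : R'.obj Z ⥤ R.obj Z).obj := by
      funext s
      exact Prod.ext (Functor.congr_obj (nat p) s) (Functor.congr_obj (nat q) s)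
    rw [← k2] at k
    refine (Function.Bijective.of_comp_iff' ?_ _).1 k
    exact (hob X).prodMap (hob Y)
  · intro X Y Z p q hpq x y
    exact prodMap_transfer (fm R' p) (fm R' q) (fm R p) (fm R q) _ _ _ (nat p) (nat q)
      (hmp Z) (hmp X) (hmp Y) (h.prodMap p q hpq) x y
  · intro X hX x y
    obtain ⟨a⟩ := h.conn X hX ((α.hom.app X : R'.obj X ⥤ R.obj X).obj x)
      ((α.hom.app X : R'.obj X ⥤ R.obj X).obj y)
    obtain ⟨b, -⟩ := (hmp X x y).2 a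
    exact ⟨b⟩
  · intro X Y f hf
    exact star_transfer (fm R' f) (fm R f) _ _ (nat f) (hst X) (hst Y) (h.lift f hf)

theorem exists_eq (P R : 𝒱 ⥤ Grpd.{v, u}) (Q : 𝒱 → Prop) (τ : R ⟶ P)
    (hτ : ∀ X, Q X → IsIso (τ.app X)) : ∃ (R' : 𝒱 ⥤ Grpd.{v, u}) (α : R' ≅ R),
      ∀ X, Q X → ∃ h : R'.obj X = P.obj X, (α.hom ≫ τ).app X = eqToHom h := by
  classical
  let e : ∀ X : 𝒱, Σ' o : Grpd.{v, u}, (o ≅ R.obj X) := fun X =>
    if h : Q X then ⟨P.obj X, (@asIso _ _ _ _ (τ.app X) (hτ X h)).symm⟩ else ⟨R.obj X, Iso.refl _⟩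
  let R' : 𝒱 ⥤ Grpd.{v, u} :=
    { obj := fun X => (e X).1
      map := fun {X Y} f => (e X).2.hom ≫ R.map f ≫ (e Y).2.inv
      map_id := fun X => by simp
      map_comp := fun f g => by simp }
  refine ⟨R', NatIso.ofComponents (fun X => (e X).2) (fun {X Y} f => by simp [R']), ?_⟩
  intro X hX
  have he : e X = ⟨P.obj X, (@asIso _ _ _ _ (τ.app X) (hτ X hX)).symm⟩ := dif_pos hX
  have key : ∀ s : (Σ' o : Grpd.{v, u}, (o ≅ R.obj X)),
      s = ⟨P.obj X, (@asIso _ _ _ _ (τ.app X) (hτ X hX)).symm⟩ →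
      ∃ h : s.1 = P.obj X, s.2.hom ≫ τ.app X = eqToHom h := by
    rintro _ rfl
    refine ⟨rfl, ?_⟩
    have := hτ X hX
    simp
  exact key _ he

end Pool.Agent.K4H21.PL
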